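import Pool.Agent.Helper17.OD.GoalsMA
import Pool.Agent.Helper17.OD.SO

/-!
# OD packet TDC: the calculus of T-definable relations
-/

namespace Pool.Agent.Helper17.OD.PkTDC

open Set

/-- Substitution of a term for the environment in a formula code. -/
def fsub : Code → Code → Code
  | .pr (.nat 0) (.pr s t), c => .pr (.nat 0) (.pr (ccomp s c) (ccomp t c))
  | .pr (.nat 1) (.pr s t), c => .pr (.nat 1) (.pr (ccomp s c) (ccomp t c))
  | .pr (.nat 2) s, c => .pr (.nat 2) (ccomp s c)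
  | .pr (.nat 3) (.pr s t), c => .pr (.nat 3) (.pr (ccomp s c) (ccomp t c))
  | .pr (.nat 4) (.pr s (.pr u v)), c =>
      .pr (.nat 4) (.pr (ccomp s c) (.pr (ccomp u c) (ccomp v c)))
  | .pr (.nat 5) (.pr φ ψ), c => .pr (.nat 5) (.pr (fsub φ c) (fsub ψ c))
  | .pr (.nat 6) φ, c => .pr (.nat 6) (fsub φ (clift c))
  | _, _ => .nat 0

theorem stp_fsub (a : O) (R : O → Code → T → Prop) (φ c : Code) (e : T) :
    stp a R (fsub φ c) e ↔ stp a R φ (tval c e) := by
  fun_induction fsub φ c generalizing e with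
  | case1 s t c => simp only [stp, tval_ccomp]
  | case2 s t c => simp only [stp, tval_ccomp]
  | case3 s c => simp only [stp, tval_ccomp]
  | case4 s t c => simp only [stp, tval_ccomp]
  | case5 s u v c => simp only [stp, tval_ccomp]
  | case6 φ ψ c ih1 ih2 => simp only [stp, ih1, ih2]
  | case7 φ c ih => simp only [stp, ih, tval_clift]
  | case8 φ c h1 h2 h3 h4 h5 h6 h7 =>
    have : stp a R φ (tval c e) = False := by
      unfold stp
      split <;> simp_all
    simp [this, stp]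

theorem tru_fsub (a : O) (φ c : Code) (e : T) : Tru a (fsub φ c) e ↔ Tru a φ (tval c e) := by
  rw [tru_eq]
  exact stp_fsub a _ φ c e

theorem t_eq (a : O) (s t : Code) (e : T) :
    Tru a (.pr (.nat 0) (.pr s t)) e ↔ tval s e = tval t e := by
  rw [tru_eq]; simp only [stp]

theorem t_lt (a : O) (s t : Code) (e : T) :
    Tru a (.pr (.nat 1) (.pr s t)) e ↔ (tval s e).lt (tval t e) := by
  rw [tru_eq]; simp only [stp]

theorem t_ord (a : O) (s : Code) (e : T) :
    Tru a (.pr (.nat 2) s) e ↔ (tval s e).IsOrd := by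
  rw [tru_eq]; simp only [stp]

theorem t_lmem (a : O) (s t : Code) (e : T) :
    Tru a (.pr (.nat 3) (.pr s t)) e ↔ (tval s e).lmem (tval t e) := by
  rw [tru_eq]; simp only [stp]

theorem t_tru (a : O) (s u v : Code) (e : T) :
    Tru a (.pr (.nat 4) (.pr s (.pr u v))) e ↔ ∃ (b : O) (c : Code), tval s e = .ord b ∧ b < a ∧
      tval u e = Tr.ofCode c ∧ tval v e ∈ D (Iio b) ∧ Tru b c (tval v e) := by
  rw [tru_eq]; simp only [stp]
  constructor
  · rintro ⟨b, c, h1, h2, h3, h4, -, h5⟩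
    exact ⟨b, c, h1, h2, h3, h4, h5⟩
  · rintro ⟨b, c, h1, h2, h3, h4, h5⟩
    exact ⟨b, c, h1, h2, h3, h4, h2, h5⟩

theorem t_nand (a : O) (φ ψ : Code) (e : T) :
    Tru a (.pr (.nat 5) (.pr φ ψ)) e ↔ ¬ (Tru a φ e ∧ Tru a ψ e) := by
  rw [tru_eq]; simp only [stp]

theorem t_ex (a : O) (φ : Code) (e : T) :
    Tru a (.pr (.nat 6) φ) e ↔ ∃ x ∈ D (Iio a), Tru a φ (.pr x e) := by
  rw [tru_eq]; simp only [stp]

theorem t_bot (a : O) (n : ℕ) (e : T) : ¬ Tru a (.nat n) e := by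
  rw [tru_eq]; simp only [stp]; exact id

theorem nand {P R : O → T → Prop} (hP : TDef P) (hR : TDef R) :
    TDef (fun a e => ¬ (P a e ∧ R a e)) := by
  obtain ⟨c, hc⟩ := hP
  obtain ⟨d, hd⟩ := hR
  exact ⟨.pr (.nat 5) (.pr c d), fun a e he => by rw [t_nand, hc a e he, hd a e he]⟩

theorem congr {P R : O → T → Prop} (hP : TDef P) (h : ∀ a, ∀ e ∈ D (Iio a), (P a e ↔ R a e)) :
    TDef R := by
  obtain ⟨c, hc⟩ := hP
  exact ⟨c, fun a e he => (hc a e he).trans (h a e he)⟩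

theorem not {P : O → T → Prop} (hP : TDef P) : TDef (fun a e => ¬ P a e) :=
  congr (nand hP hP) fun a e _ => by rw [and_self]

theorem and {P R : O → T → Prop} (hP : TDef P) (hR : TDef R) :
    TDef (fun a e => P a e ∧ R a e) :=
  congr (not (nand hP hR)) fun a e _ => by tauto

theorem or {P R : O → T → Prop} (hP : TDef P) (hR : TDef R) :
    TDef (fun a e => P a e ∨ R a e) :=
  congr (nand (not hP) (not hR)) fun a e _ => by tauto

theorem imp {P R : O → T → Prop} (hP : TDef P) (hR : TDef R) :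
    TDef (fun a e => P a e → R a e) :=
  congr (nand hP (not hR)) fun a e _ => by tauto

theorem iff {P R : O → T → Prop} (hP : TDef P) (hR : TDef R) :
    TDef (fun a e => (P a e ↔ R a e)) :=
  congr (and (imp hP hR) (imp hR hP)) fun a e _ => by tauto

theorem ex {P : O → T → T → Prop} (hP : TDef (fun a p => P a p.snd p.fst)) :
    TDef (fun a e => ∃ x ∈ D (Iio a), P a e x) := by
  obtain ⟨c, hc⟩ := hP
  refine ⟨.pr (.nat 6) c, fun a e he => ?_⟩
  rw [t_ex]
  exact exists_congr fun x => and_congr_right fun hx => hc a (.pr x e) (pr_mem.2 ⟨hx, he⟩)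

theorem all {P : O → T → T → Prop} (hP : TDef (fun a p => P a p.snd p.fst)) :
    TDef (fun a e => ∀ x ∈ D (Iio a), P a e x) := by
  have h1 : TDef (fun a e => ∃ x ∈ D (Iio a), ¬ P a e x) :=
    ex (P := fun a e x => ¬ P a e x) (not hP)
  exact congr (not h1) fun a e _ => by push Not; rfl

theorem sub {P : O → T → Prop} {t : T → T} (hP : TDef P) (ht : TT t) :
    TDef (fun a e => P a (t e)) := by
  obtain ⟨c, hc⟩ := hP
  obtain ⟨d, hd⟩ := ht
  refine ⟨fsub c d, fun a e he => ?_⟩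
  rw [tru_fsub, hc a _ (tval_mem he), hd]

theorem thm : G_TDC := by
  refine ⟨?_, ?_, ?_, ?_, ?_, fun P hP => not hP, fun P R hP hR => and hP hR,
    fun P R hP hR => or hP hR, fun P R hP hR => imp hP hR, fun P R hP hR => iff hP hR,
    fun P hP => ex hP, fun P hP => all hP, fun P t hP ht => sub hP ht, ?_, ?_⟩
  · rintro s t ⟨c, hc⟩ ⟨d, hd⟩
    exact ⟨.pr (.nat 0) (.pr c d), fun a e he => by rw [t_eq, hc, hd]⟩
  · rintro s t ⟨c, hc⟩ ⟨d, hd⟩
    exact ⟨.pr (.nat 1) (.pr c d), fun a e he => by rw [t_lt, hc, hd]⟩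
  · rintro s ⟨c, hc⟩
    exact ⟨.pr (.nat 2) c, fun a e he => by rw [t_ord, hc]⟩
  · rintro s t ⟨c, hc⟩ ⟨d, hd⟩
    exact ⟨.pr (.nat 3) (.pr c d), fun a e he => by rw [t_lmem, hc, hd]⟩
  · intro p
    by_cases hp : p
    · exact ⟨.pr (.nat 0) (.pr (.nat 1) (.nat 1)), fun a e he => by rw [t_eq]; simp [hp]⟩
    · exact ⟨.nat 0, fun a e he => by simp [hp, t_bot a 0 e]⟩
  · rintro s u v ⟨c, hc⟩ ⟨d, hd⟩ ⟨f, hf⟩
    refine ⟨.pr (.nat 4) (.pr c (.pr d f)), fun a e he => ?_⟩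
    rw [t_tru, hc, hd, hf]
    constructor
    · rintro ⟨b, g, h1, h2, h3, h4, h5⟩
      exact ⟨b, g, h1, h3, h4, h5⟩
    · rintro ⟨b, g, h1, h3, h4, h5⟩
      refine ⟨b, g, h1, ?_, h3, h4, h5⟩
      have : s e ∈ D (Iio a) := by rw [← hc]; exact tval_mem he
      rw [h1] at this
      exact ord_mem.1 this
  · rintro c t ⟨d, hd⟩
    exact ⟨fsub c d, fun a e he => by rw [tru_fsub, hd]⟩

end Pool.Agent.Helper17.OD.PkTDC
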