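import Pool.Agent.Helper46.OD.TTC

/-!
# OD packet QRT: `Qr`, `Im` and the composition property are T-definable
-/

namespace Pool.Agent.Helper17.OD.PkQRT

open Set

theorem lev_lt {a : O} {t : T} (ht : t ∈ D (Iio a)) {b : O} (hb : b < lev t) : b < a := by
  cases t with
  | nat n => simp [lev] at hb
  | pr s t => simp [lev] at hb
  | ord c => exact lt_trans hb (ord_mem.1 ht)

theorem lev_le {a : O} {t : T} (ht : t ∈ D (Iio a)) (h : t.IsOrd) : lev t < a := by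
  cases t with
  | nat n => exact h.elim
  | pr s t => exact h.elim
  | ord c => exact ord_mem.1 ht

theorem isOrd_eq {t : T} (h : t.IsOrd) : t = .ord (lev t) := by
  cases t with
  | nat n => exact h.elim
  | pr s t => exact h.elim
  | ord c => rfl

theorem pj_mem {a : O} {m m' : T} (hm : m ∈ D (Iio a)) (hm' : m' ∈ D (Iio a)) {t t' : T}
    (h : PJ m m' t t') : t ∈ D (Iio a) ∧ t' ∈ D (Iio a) := by
  induction h with
  | nat n => exact ⟨nat_mem _ _, nat_mem _ _⟩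
  | low hx =>
    have := lev_lt (fst_mem (snd_mem (snd_mem hm))) hx
    exact ⟨ord_mem.2 this, ord_mem.2 this⟩
  | par => exact ⟨snd_mem (snd_mem (snd_mem hm)), snd_mem (snd_mem (snd_mem hm'))⟩
  | pr _ _ h1 h2 => exact ⟨pr_mem.2 ⟨h1.1, h2.1⟩, pr_mem.2 ⟨h1.2, h2.2⟩⟩
  | fst _ h => exact ⟨fst_mem h.1, fst_mem h.2⟩
  | snd _ h => exact ⟨snd_mem h.1, snd_mem h.2⟩
  | inner _ hb hb' _ _ _ hw hw' _ _ =>
    exact ⟨D_mono (Iio_subset_Iio (lev_lt (fst_mem hm) hb).le) hw.1,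
      D_mono (Iio_subset_Iio (lev_lt (fst_mem hm') hb').le) hw'.1⟩
  | top ho ho' _ _ _ _ _ hw hw' _ =>
    exact ⟨D_mono (Iio_subset_Iio (lev_le (fst_mem hm) ho).le) hw.1,
      D_mono (Iio_subset_Iio (lev_le (fst_mem hm') ho').le) hw'.1⟩

theorem code_mem (c : Code) (A : Set O) : (Tr.ofCode c : T) ∈ D A := by
  rw [D, mem_ofPred_eq, ofCode_leaves46]
  exact empty_subset _

/-- The bounded form of `Im`. -/
def ImB (a : O) (m m' : T) : Prop :=
  (∀ t ∈ D (Iio a), ∀ t' ∈ D (Iio a), PJ m m' t t' → InD m.fst t ∧ InD m'.fst t') ∧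
  (∀ t ∈ D (Iio a), InD m.fst t → ∃ t' ∈ D (Iio a), PJ m m' t t') ∧
  (∀ t ∈ D (Iio a), ∀ t' ∈ D (Iio a), ∀ t'' ∈ D (Iio a), PJ m m' t t' → PJ m m' t t'' → t' = t'') ∧
  (∀ t ∈ D (Iio a), ∀ t' ∈ D (Iio a), PJ m m' t t' → t.IsOrd → t'.IsOrd) ∧
  (∀ t ∈ D (Iio a), ∀ t' ∈ D (Iio a), ∀ u ∈ D (Iio a), ∀ u' ∈ D (Iio a), PJ m m' t t' →
    PJ m m' u u' → t.lt u → t'.lt u') ∧
  (∀ b ∈ D (Iio a), ∀ b' ∈ D (Iio a), ∀ e ∈ D (Iio a), ∀ e' ∈ D (Iio a), b.IsOrd → b'.IsOrd →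
    PJ m m' b b' → PJ m m' e e' → InD b e → InD b' e') ∧
  (∀ b ∈ D (Iio a), ∀ b' ∈ D (Iio a), ∀ e ∈ D (Iio a), ∀ e' ∈ D (Iio a), ∀ c ∈ D (Iio a),
    b.IsOrd → b'.IsOrd → (∃ φ : Code, c = Tr.ofCode φ) →
    PJ m m' b b' → PJ m m' e e' → InD b e → (TruT b c e ↔ TruT b' c e')) ∧
  (∀ b ∈ D (Iio a), ∀ b' ∈ D (Iio a), ∀ e ∈ D (Iio a), ∀ e' ∈ D (Iio a), ∀ x ∈ D (Iio a),
    ∀ x' ∈ D (Iio a), ∀ c ∈ D (Iio a), b.IsOrd → b'.IsOrd → (∃ φ : Code, c = Tr.ofCode φ) →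
    PJ m m' b b' → PJ m m' e e' → InD b e → PJ m m' x x' → IsWT b c e x → IsWT b' c e' x') ∧
  (∀ e ∈ D (Iio a), ∀ e' ∈ D (Iio a), ∀ c ∈ D (Iio a), (∃ φ : Code, c = Tr.ofCode φ) →
    PJ m m' e e' → (c = m.snd.fst.fst ∨ c.lt m.snd.fst.fst) →
      (TruT m.fst c e ↔ TruT m'.fst c e')) ∧
  (∀ e ∈ D (Iio a), ∀ e' ∈ D (Iio a), ∀ c ∈ D (Iio a), PJ m m' e e' →
    (∃ φ : Code, c = Tr.ofCode φ ∧ av m.snd.fst φ e) →
    (∃ φ : Code, c = Tr.ofCode φ ∧ av m'.snd.fst φ e')) ∧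
  (∀ e ∈ D (Iio a), ∀ e' ∈ D (Iio a), ∀ x ∈ D (Iio a), ∀ x' ∈ D (Iio a), ∀ c ∈ D (Iio a),
    PJ m m' e e' → PJ m m' x x' → (∃ φ : Code, c = Tr.ofCode φ ∧ av m.snd.fst φ e) →
    IsWT m.fst c e x → IsWT m'.fst c e' x')

theorem truT_iff {b : O} {c : Code} {e : T} (he : e ∈ D (Iio b)) :
    TruT (.ord b) (Tr.ofCode c) e ↔ Tru b c e := by
  constructor
  · rintro ⟨b', c', h1, h2, h3, h4⟩
    injection h1 with h1
    subst h1
    rw [ofCode_inj46 h2]
    exact h4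
  · intro h
    exact ⟨b, c, rfl, rfl, he, h⟩

theorem isWT_iff {b : O} {c : Code} {e x : T} (he : e ∈ D (Iio b)) :
    IsWT (.ord b) (Tr.ofCode c) e x ↔ IsW b c e x := by
  constructor
  · rintro ⟨b', c', h1, h2, h3, h4⟩
    injection h1 with h1
    subst h1
    rw [ofCode_inj46 h2]
    exact h4
  · intro h
    exact ⟨b, c, rfl, rfl, he, h⟩

theorem inD_iff {b : O} {e : T} : InD (.ord b) e ↔ e ∈ D (Iio b) := by
  constructor
  · rintro ⟨b', h1, h2⟩
    injection h1 with h1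
    subst h1
    exact h2
  · intro h
    exact ⟨b, rfl, h⟩

theorem av_iff {q : T} {c : Code} {e : T} :
    (∃ φ : Code, (Tr.ofCode c : T) = Tr.ofCode φ ∧ av q φ e) ↔ av q c e := by
  constructor
  · rintro ⟨φ, h1, h2⟩
    rw [ofCode_inj46 h1]
    exact h2
  · intro h
    exact ⟨c, rfl, h⟩

theorem imB_iff {a : O} {m m' : T} (hm : m ∈ D (Iio a)) (hm' : m' ∈ D (Iio a))
    (ho : m.fst.IsOrd) (ho' : m'.fst.IsOrd) : ImB a m m' ↔ Im m m' := by
  have e1 : m.fst = .ord (mA m) := isOrd_eq ho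
  have e2 : m'.fst = .ord (mA m') := isOrd_eq ho'
  have hA : mA m < a := lev_le (fst_mem hm) ho
  have hA' : mA m' < a := lev_le (fst_mem hm') ho'
  constructor
  · rintro ⟨f1, f2, f3, f4, f5, f6, f7, f8, f9, f10, f11⟩
    rw [e1, e2] at f1 f9 f11
    rw [e1] at f2
    have dom : ∀ t t', PJ m m' t t' → t ∈ D (Iio (mA m)) ∧ t' ∈ D (Iio (mA m')) := by
      intro t t' h
      obtain ⟨h1, h2⟩ := pj_mem hm hm' h
      obtain ⟨g1, g2⟩ := f1 t h1 t' h2 h
      exact ⟨inD_iff.1 g1, inD_iff.1 g2⟩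
    have low : ∀ b b' e e', PJ m m' (.ord b) (.ord b') → PJ m m' e e' → e ∈ D (Iio b) →
        e' ∈ D (Iio b') := by
      intro b b' e e' h h' he
      obtain ⟨h1, h2⟩ := pj_mem hm hm' h
      obtain ⟨h3, h4⟩ := pj_mem hm hm' h'
      exact inD_iff.1 (f6 _ h1 _ h2 _ h3 _ h4 trivial trivial h h' (inD_iff.2 he))
    refine ⟨dom, ?_, ?_, ?_, ?_, low, ?_, ?_, ?_, ?_, ?_⟩
    · intro t ht
      obtain ⟨t', -, h⟩ := f2 t (D_mono (Iio_subset_Iio hA.le) ht) (inD_iff.2 ht)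
      exact ⟨t', h⟩
    · intro t t' t'' h h'
      obtain ⟨h1, h2⟩ := pj_mem hm hm' h
      obtain ⟨h3, h4⟩ := pj_mem hm hm' h'
      exact f3 _ h1 _ h2 _ h4 h h'
    · intro t t' h
      obtain ⟨h1, h2⟩ := pj_mem hm hm' h
      exact f4 _ h1 _ h2 h
    · intro t t' u u' h h'
      obtain ⟨h1, h2⟩ := pj_mem hm hm' h
      obtain ⟨h3, h4⟩ := pj_mem hm hm' h'
      exact f5 _ h1 _ h2 _ h3 _ h4 h h'
    · intro b b' e e' c h h' he
      obtain ⟨h1, h2⟩ := pj_mem hm hm' h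
      obtain ⟨h3, h4⟩ := pj_mem hm hm' h'
      have := f7 _ h1 _ h2 _ h3 _ h4 _ (code_mem c _) trivial trivial ⟨c, rfl⟩ h h' (inD_iff.2 he)
      rwa [truT_iff he, truT_iff (low _ _ _ _ h h' he)] at this
    · intro b b' e e' x x' c h h' he hx hw
      obtain ⟨h1, h2⟩ := pj_mem hm hm' h
      obtain ⟨h3, h4⟩ := pj_mem hm hm' h'
      obtain ⟨h5, h6⟩ := pj_mem hm hm' hx
      have := f8 _ h1 _ h2 _ h3 _ h4 _ h5 _ h6 _ (code_mem c _) trivial trivial ⟨c, rfl⟩ h h'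
        (inD_iff.2 he) hx
      rw [isWT_iff he, isWT_iff (low _ _ _ _ h h' he)] at this
      exact this hw
    · intro e e' c h hc
      obtain ⟨h1, h2⟩ := pj_mem hm hm' h
      obtain ⟨g1, g2⟩ := dom _ _ h
      have := f9 _ h1 _ h2 _ (code_mem c _) ⟨c, rfl⟩ h hc
      rwa [truT_iff g1, truT_iff g2] at this
    · intro e e' c h hc
      obtain ⟨h1, h2⟩ := pj_mem hm hm' h
      have := f10 _ h1 _ h2 _ (code_mem c _) h (av_iff.2 hc)
      exact av_iff.1 this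
    · intro e e' x x' c h hx hc hw
      obtain ⟨h1, h2⟩ := pj_mem hm hm' h
      obtain ⟨h3, h4⟩ := pj_mem hm hm' hx
      obtain ⟨g1, g2⟩ := dom _ _ h
      have := f11 _ h1 _ h2 _ h3 _ h4 _ (code_mem c _) h hx (av_iff.2 hc)
      rw [isWT_iff g1, isWT_iff g2] at this
      exact this hw
  · intro H
    refine ⟨?_, ?_, ?_, ?_, ?_, ?_, ?_, ?_, ?_, ?_, ?_⟩
    · intro t _ t' _ h
      rw [e1, e2, inD_iff, inD_iff]
      exact H.dom _ _ h
    · intro t _ h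
      rw [e1, inD_iff] at h
      obtain ⟨t', ht'⟩ := H.tot t h
      exact ⟨t', (pj_mem hm hm' ht').2, ht'⟩
    · intro t _ t' _ t'' _ h h'
      exact H.fn _ _ _ h h'
    · intro t _ t' _ h
      exact H.ord _ _ h
    · intro t _ t' _ u _ u' _ h h'
      exact H.mono _ _ _ _ h h'
    · intro b _ b' _ e _ e' _ hb hb' h h' he
      rw [isOrd_eq hb, isOrd_eq hb'] at h
      rw [isOrd_eq hb, inD_iff] at he
      rw [isOrd_eq hb', inD_iff]
      exact H.low _ _ _ _ h h' he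
    · rintro b _ b' _ e _ e' _ c _ hb hb' ⟨φ, rfl⟩ h h' he
      rw [isOrd_eq hb, isOrd_eq hb'] at h
      rw [isOrd_eq hb, inD_iff] at he
      rw [isOrd_eq hb, isOrd_eq hb', truT_iff he, truT_iff (H.low _ _ _ _ h h' he)]
      exact H.tru _ _ _ _ _ h h' he
    · rintro b _ b' _ e _ e' _ x _ x' _ c _ hb hb' ⟨φ, rfl⟩ h h' he hx hw
      rw [isOrd_eq hb, isOrd_eq hb'] at h
      rw [isOrd_eq hb, inD_iff] at he
      rw [isOrd_eq hb, isWT_iff he] at hw
      rw [isOrd_eq hb', isWT_iff (H.low _ _ _ _ h h' he)]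
      exact H.isw _ _ _ _ _ _ _ h h' he hx hw
    · rintro e _ e' _ c _ ⟨φ, rfl⟩ h hc
      obtain ⟨g1, g2⟩ := H.dom _ _ h
      rw [e1, e2, truT_iff g1, truT_iff g2]
      exact H.top _ _ _ h hc
    · rintro e _ e' _ c _ h ⟨φ, rfl, hc⟩
      exact ⟨φ, rfl, H.cut _ _ _ h hc⟩
    · rintro e _ e' _ x _ x' _ c _ h hx ⟨φ, rfl, hc⟩ hw
      obtain ⟨g1, g2⟩ := H.dom _ _ h
      rw [e1, isWT_iff g1] at hw
      rw [e2, isWT_iff g2]
      exact H.wit _ _ _ _ _ h hx hc hw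

theorem td_pj (h : G_PJT) {m m' x x' : T → T} (h1 : TT m) (h2 : TT m') (h3 : TT x) (h4 : TT x') :
    TDef (fun _ e => PJ (m e) (m' e) (x e) (x' e)) := h m m' x x' h1 h2 h3 h4

theorem td_qr (h : G_PJT) : TDef (fun _ e => Qr e.fst e.snd.fst e.snd.snd.fst e.snd.snd.snd) := by
  have h1 : TDef (fun a e => e.snd.snd.fst.IsOrd ∧ e.snd.snd.snd.IsOrd ∧ ∃ y ∈ D (Iio a),
      y.IsOrd ∧ PJ e.fst e.snd.fst e.snd.snd.fst y ∧ e.snd.snd.snd.lt y) := by
    repeat' first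
      | assumption
      | exact TT.id46
      | exact TT.nat46 _
      | apply TT.fst46
      | apply TT.snd46
      | apply TT.pr46
      | apply TDef.ex46
      | apply TDef.all46
      | apply TDef.isCode46
      | apply TDef.isOrd46
      | apply TDef.inD46
      | apply TDef.truT46
      | apply TDef.isWT46
      | apply TDef.av46
      | apply TDef.lmem46
      | apply TDef.lt46
      | apply TDef.eq46
      | apply TDef.not46
      | apply TDef.and46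
      | apply TDef.or46
      | apply TDef.iff46
      | apply TDef.imp46
      | refine td_pj (by assumption) ?_ ?_ ?_ ?_
  refine h1.congr46 fun a e he => ?_
  refine and_congr_right fun _ => and_congr_right fun _ => ?_
  constructor
  · rintro ⟨y, -, hy⟩
    exact ⟨y, hy⟩
  · rintro ⟨y, hy⟩
    exact ⟨y, (pj_mem (fst_mem he) (fst_mem (snd_mem he)) hy.2.1).2, hy⟩

theorem td_im (h : G_PJT) : TDef (fun _ e => e.fst.fst.IsOrd ∧ e.snd.fst.IsOrd ∧
    Im e.fst e.snd) := by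
  have h1 : TDef (fun a e => e.fst.fst.IsOrd ∧ e.snd.fst.IsOrd ∧ ImB a e.fst e.snd) := by
    unfold ImB
    repeat' first
      | assumption
      | exact TT.id46
      | exact TT.nat46 _
      | apply TT.fst46
      | apply TT.snd46
      | apply TT.pr46
      | apply TDef.ex46
      | apply TDef.all46
      | apply TDef.isCode46
      | apply TDef.isOrd46
      | apply TDef.inD46
      | apply TDef.truT46
      | apply TDef.isWT46
      | apply TDef.av46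
      | apply TDef.lmem46
      | apply TDef.lt46
      | apply TDef.eq46
      | apply TDef.not46
      | apply TDef.and46
      | apply TDef.or46
      | apply TDef.iff46
      | apply TDef.imp46
      | refine td_pj (by assumption) ?_ ?_ ?_ ?_
  refine h1.congr46 fun a e he => ?_
  exact and_congr_right fun h2 => and_congr_right fun h3 =>
    imB_iff (fst_mem he) (snd_mem he) h2 h3

theorem td_comp (h : G_PJT) : TDef (fun _ e => ∀ t t' t'', PJ e.fst e.snd.fst t t' →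
    PJ e.snd.fst e.snd.snd t' t'' → PJ e.fst e.snd.snd t t'') := by
  have h1 : TDef (fun a e => ∀ t ∈ D (Iio a), ∀ t' ∈ D (Iio a), ∀ t'' ∈ D (Iio a),
      PJ e.fst e.snd.fst t t' → PJ e.snd.fst e.snd.snd t' t'' → PJ e.fst e.snd.snd t t'') := by
    repeat' first
      | assumption
      | exact TT.id46
      | exact TT.nat46 _
      | apply TT.fst46
      | apply TT.snd46
      | apply TT.pr46
      | apply TDef.ex46
      | apply TDef.all46
      | apply TDef.isCode46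
      | apply TDef.isOrd46
      | apply TDef.inD46
      | apply TDef.truT46
      | apply TDef.isWT46
      | apply TDef.av46
      | apply TDef.lmem46
      | apply TDef.lt46
      | apply TDef.eq46
      | apply TDef.not46
      | apply TDef.and46
      | apply TDef.or46
      | apply TDef.iff46
      | apply TDef.imp46
      | refine td_pj (by assumption) ?_ ?_ ?_ ?_
  refine h1.congr46 fun a e he => ?_
  constructor
  · intro H t t' t'' g g'
    obtain ⟨g1, g2⟩ := pj_mem (fst_mem he) (fst_mem (snd_mem he)) g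
    obtain ⟨g3, g4⟩ := pj_mem (fst_mem (snd_mem he)) (snd_mem (snd_mem he)) g'
    exact H t g1 t' g2 t'' g4 g g'
  · intro H t _ t' _ t'' _
    exact H t t' t''

theorem thm (h : G_PJT) : G_QRT := by
  refine ⟨fun z z' x x' hz hz' hx hx' => ?_, fun m m' hm hm' => ?_, fun m m' m'' hm hm' hm'' => ?_⟩
  · exact (td_qr h).sub46 (TT.pr46 hz (TT.pr46 hz' (TT.pr46 hx hx')))
  · exact (td_im h).sub46 (TT.pr46 hm hm')
  · exact (td_comp h).sub46 (TT.pr46 hm (TT.pr46 hm' hm''))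

end Pool.Agent.Helper17.OD.PkQRT
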