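import Pool.Agent.Helper17.OD.GoalsSO

/-!
# OD packet TRE: basic relations on trees are SD
-/

namespace Pool.Agent.Helper17.OD.PkTRE

open Set

/-- Components, up to depth two on the right. -/
def cm (a t : T) : Prop :=
  t = .pr t.fst t.snd ∧ (a = t.fst ∨ a = t.snd ∨
    (t.snd = .pr t.snd.fst t.snd.snd ∧ (a = t.snd.fst ∨ a = t.snd.snd)))

/-- The predecessor relation. -/
def Pd (p x : T) : Prop :=
  p = .pr p.fst p.snd ∧ x = .pr x.fst x.snd ∧
    ((cm p.fst x.fst ∧ p.snd = x.snd) ∨ (p.fst = x.fst ∧ cm p.snd x.snd) ∨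
      (cm p.fst x.fst ∧ cm p.snd x.snd))

theorem cm_height {a t : T} (h : cm a t) : a.height < t.height := by
  obtain ⟨h1, h2⟩ := h
  cases t with
  | nat n => simp at h1
  | ord x => simp at h1
  | pr s r =>
    simp only [Tr.fst, Tr.snd] at h2
    rcases h2 with rfl | rfl | ⟨h3, h4⟩
    · simp only [Tr.height]; omega
    · simp only [Tr.height]; omega
    · cases r with
      | nat n => simp at h3
      | ord x => simp at h3
      | pr u v =>
        simp only [Tr.fst, Tr.snd] at h4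
        rcases h4 with rfl | rfl
        · simp only [Tr.height]; omega
        · simp only [Tr.height]; omega

theorem cm_mem {a t : T} {A : Set O} (h : cm a t) (ht : t ∈ D A) : a ∈ D A := by
  obtain ⟨h1, h2⟩ := h
  rcases h2 with rfl | rfl | ⟨h3, rfl | rfl⟩
  · exact fst_mem ht
  · exact snd_mem ht
  · exact fst_mem (snd_mem ht)
  · exact snd_mem (snd_mem ht)

theorem pd_height {p x : T} (h : Pd p x) :
    p.fst.height + p.snd.height < x.fst.height + x.snd.height := by
  obtain ⟨-, -, h⟩ := h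
  rcases h with ⟨h1, h2⟩ | ⟨h1, h2⟩ | ⟨h1, h2⟩
  · have := cm_height h1; rw [h2]; omega
  · have := cm_height h2; rw [h1]; omega
  · have := cm_height h1; have := cm_height h2; omega

theorem pd_mem {p x : T} {A : Set O} (h : Pd p x) (hx : x ∈ D A) : p ∈ D A := by
  obtain ⟨h0, -, h⟩ := h
  rw [h0]
  rw [pr_mem]
  rcases h with ⟨h1, h2⟩ | ⟨h1, h2⟩ | ⟨h1, h2⟩
  · exact ⟨cm_mem h1 (fst_mem hx), by rw [h2]; exact snd_mem hx⟩
  · exact ⟨by rw [h1]; exact fst_mem hx, cm_mem h2 (snd_mem hx)⟩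
  · exact ⟨cm_mem h1 (fst_mem hx), cm_mem h2 (snd_mem hx)⟩

theorem pd_wf : WellFounded fun y x : T => y ∈ ({p | Pd p x} : Set T) := by
  have h : WellFounded (InvImage (· < ·) (fun x : T => x.fst.height + x.snd.height)) :=
    InvImage.wf _ wellFounded_lt
  exact Subrelation.wf (fun {p x} hp => pd_height hp) h

variable {k : O} {S S' : Set (Set T)}

theorem sd_pd [h : SOM k S S'] : SD k S S' (fun e _ => e.fst ∈ ({p | Pd p e.snd} : Set T)) := by
  change SD k S S' (fun e _ => Pd e.fst e.snd)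
  unfold Pd cm
  (repeat' first | assumption | exact ST.id | exact ST.nat _ | exact SV.var _ | apply ST.fst | apply ST.snd | apply ST.pr | apply SD.exT | apply SD.allT | apply SD.isOrd | apply SD.llt | apply SD.mem | apply SD.eq | apply SD.not | apply SD.and | apply SD.or | apply SD.iff | apply SD.imp | refine SD.app2 (by assumption) ?_ ?_)

theorem d0 (h : SOM k S S') : ∃ d₀ < k, ∀ d < k, d₀ ≤ d → ∀ x ∈ D (Iio d),
    ({p | Pd p x} : Set T) ⊆ D (Iio d) :=
  ⟨Ordinal.omega0, h.omg, fun _ _ _ _ hx _ hp => pd_mem hp hx⟩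

theorem rel2 (hrec : G_REC) [h : SOM k S S'] (R : T → T → Prop) (Ψ : T → T → Set T → Prop)
    (hΨ : SD k S S' (fun e σ => Ψ e.fst e.snd (σ 0)))
    (hR : ∀ s ∈ D (Iio k), ∀ t ∈ D (Iio k), ∀ G : Set T,
      (∀ a b, Pd (.pr a b) (.pr s t) → (Tr.pr (.pr a b) (.nat 0) ∈ G ↔ R a b)) →
      (R s t ↔ Ψ s t G)) : SD k S S' (fun e _ => R e.fst e.snd) := by
  have key := hrec k S S' h (fun x => {p | Pd p x})
    (fun x => {y | y = .nat 0 ∧ x = .pr x.fst x.snd ∧ R x.fst x.snd})
    (fun x y G => y = .nat 0 ∧ x = .pr x.fst x.snd ∧ Ψ x.fst x.snd G) sd_pd ?_ pd_wf (d0 h) ?_ ?_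
  · have h1 : SD k S S' (fun e _ => e.snd ∈ ({y | y = .nat 0 ∧ e.fst = .pr e.fst.fst e.fst.snd ∧
        R e.fst.fst e.fst.snd} : Set T)) := key.1
    have h2 := h1.sub (t := fun e => .pr (.pr e.fst e.snd) (.nat 0)) (by (repeat' first | assumption | exact ST.id | exact ST.nat _ | exact SV.var _ | apply ST.fst | apply ST.snd | apply ST.pr | apply SD.exT | apply SD.allT | apply SD.isOrd | apply SD.llt | apply SD.mem | apply SD.eq | apply SD.not | apply SD.and | apply SD.or | apply SD.iff | apply SD.imp | refine SD.app2 (by assumption) ?_ ?_))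
    refine h2.congr fun e he σ hσ => ?_
    constructor
    · rintro ⟨-, -, h3⟩
      exact h3
    · intro h3
      exact ⟨rfl, rfl, h3⟩
  · have h1 : SD k S S' (fun e σ => Ψ e.fst.fst e.fst.snd (σ 0)) :=
      hΨ.sub (t := fun e => e.fst) (by (repeat' first | assumption | exact ST.id | exact ST.nat _ | exact SV.var _ | apply ST.fst | apply ST.snd | apply ST.pr | apply SD.exT | apply SD.allT | apply SD.isOrd | apply SD.llt | apply SD.mem | apply SD.eq | apply SD.not | apply SD.and | apply SD.or | apply SD.iff | apply SD.imp | refine SD.app2 (by assumption) ?_ ?_))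
    refine SD.and (by (repeat' first | assumption | exact ST.id | exact ST.nat _ | exact SV.var _ | apply ST.fst | apply ST.snd | apply ST.pr | apply SD.exT | apply SD.allT | apply SD.isOrd | apply SD.llt | apply SD.mem | apply SD.eq | apply SD.not | apply SD.and | apply SD.or | apply SD.iff | apply SD.imp | refine SD.app2 (by assumption) ?_ ?_)) (SD.and (by (repeat' first | assumption | exact ST.id | exact ST.nat _ | exact SV.var _ | apply ST.fst | apply ST.snd | apply ST.pr | apply SD.exT | apply SD.allT | apply SD.isOrd | apply SD.llt | apply SD.mem | apply SD.eq | apply SD.not | apply SD.and | apply SD.or | apply SD.iff | apply SD.imp | refine SD.app2 (by assumption) ?_ ?_)) h1)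
  · intro x hx y
    constructor
    · rintro ⟨rfl, h1, h2⟩
      refine ⟨nat_mem _ _, rfl, h1, ?_⟩
      refine (hR _ (fst_mem hx) _ (snd_mem hx) _ ?_).1 h2
      intro a b hab
      rw [← h1] at hab
      constructor
      · rintro ⟨x', y', h3, h4, h5, h6, h7⟩
        simp only [Tr.pr.injEq] at h3
        obtain ⟨rfl, rfl⟩ := h3
        exact h7
      · intro h3
        exact ⟨_, _, rfl, hab, rfl, rfl, h3⟩
    · rintro ⟨-, rfl, h1, h2⟩
      refine ⟨rfl, h1, ?_⟩
      refine (hR _ (fst_mem hx) _ (snd_mem hx) _ ?_).2 h2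
      intro a b hab
      rw [← h1] at hab
      constructor
      · rintro ⟨x', y', h3, h4, h5, h6, h7⟩
        simp only [Tr.pr.injEq] at h3
        obtain ⟨rfl, rfl⟩ := h3
        exact h7
      · intro h3
        exact ⟨_, _, rfl, hab, rfl, rfl, h3⟩
  · intro d hd
    refine ⟨d, hd, fun x hx y hy => ?_⟩
    rw [hy.1]
    exact nat_mem _ _

theorem pd_l {s₁ s₂ t : T} {a : T} (ha : a = s₁ ∨ a = s₂) : Pd (.pr a t) (.pr (.pr s₁ s₂) t) := by
  refine ⟨rfl, rfl, Or.inl ⟨⟨rfl, ?_⟩, rfl⟩⟩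
  rcases ha with h | h
  · exact Or.inl h
  · exact Or.inr (Or.inl h)

theorem pd_r {s t₁ t₂ : T} {a : T} (ha : a = t₁ ∨ a = t₂) : Pd (.pr s a) (.pr s (.pr t₁ t₂)) := by
  refine ⟨rfl, rfl, Or.inr (Or.inl ⟨rfl, ⟨rfl, ?_⟩⟩)⟩
  rcases ha with h | h
  · exact Or.inl h
  · exact Or.inr (Or.inl h)

theorem pd_lr {s₁ s₂ t₁ t₂ : T} {a b : T} (ha : a = s₁ ∨ a = s₂) (hb : b = t₁ ∨ b = t₂) :
    Pd (.pr a b) (.pr (.pr s₁ s₂) (.pr t₁ t₂)) := by
  refine ⟨rfl, rfl, Or.inr (Or.inr ⟨⟨rfl, ?_⟩, ⟨rfl, ?_⟩⟩)⟩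
  · rcases ha with h | h
    · exact Or.inl h
    · exact Or.inr (Or.inl h)
  · rcases hb with h | h
    · exact Or.inl h
    · exact Or.inr (Or.inl h)

theorem sd_hle (hrec : G_REC) [h : SOM k S S'] : SD k S S' (fun e _ => e.fst.hle e.snd) := by
  refine rel2 hrec (fun s t => s.hle t) (fun s t G => s = .pr s.fst s.snd →
    (t = .pr t.fst t.snd ∧ (Tr.pr (.pr s.fst t.fst) (.nat 0) ∈ G ∨
      Tr.pr (.pr s.fst t.snd) (.nat 0) ∈ G) ∧ (Tr.pr (.pr s.snd t.fst) (.nat 0) ∈ G ∨
      Tr.pr (.pr s.snd t.snd) (.nat 0) ∈ G))) (by (repeat' first | assumption | exact ST.id | exact ST.nat _ | exact SV.var _ | apply ST.fst | apply ST.snd | apply ST.pr | apply SD.exT | apply SD.allT | apply SD.isOrd | apply SD.llt | apply SD.mem | apply SD.eq | apply SD.not | apply SD.and | apply SD.or | apply SD.iff | apply SD.imp | refine SD.app2 (by assumption) ?_ ?_)) ?_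
  intro s _ t _ G hG
  cases s with
  | nat n => simp [Tr.hle]
  | ord a => simp [Tr.hle]
  | pr s1 s2 =>
    cases t with
    | nat n => simp [Tr.hle, Tr.fst, Tr.snd]
    | ord a => simp [Tr.hle, Tr.fst, Tr.snd]
    | pr t1 t2 =>
      simp only [Tr.hle, Tr.fst, Tr.snd]
      rw [hG s1 t1 (pd_lr (Or.inl rfl) (Or.inl rfl)), hG s1 t2 (pd_lr (Or.inl rfl) (Or.inr rfl)),
        hG s2 t1 (pd_lr (Or.inr rfl) (Or.inl rfl)), hG s2 t2 (pd_lr (Or.inr rfl) (Or.inr rfl))]
      simp

theorem sd_lt (hrec : G_REC) [h : SOM k S S'] : SD k S S' (fun e _ => e.fst.lt e.snd) := by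
  have hh := sd_hle (k := k) (S := S) (S' := S') hrec
  refine rel2 hrec (fun s t => s.lt t) (fun s t G =>
    (¬ s = .pr s.fst s.snd ∧ (t = .pr t.fst t.snd ∨ s.llt t)) ∨
    (s = .pr s.fst s.snd ∧ t = .pr t.fst t.snd ∧ (¬ t.hle s ∨ (s.hle t ∧
      (Tr.pr (.pr s.fst t.fst) (.nat 0) ∈ G ∨ (s.fst = t.fst ∧
        Tr.pr (.pr s.snd t.snd) (.nat 0) ∈ G)))))) (by (repeat' first | assumption | exact ST.id | exact ST.nat _ | exact SV.var _ | apply ST.fst | apply ST.snd | apply ST.pr | apply SD.exT | apply SD.allT | apply SD.isOrd | apply SD.llt | apply SD.mem | apply SD.eq | apply SD.not | apply SD.and | apply SD.or | apply SD.iff | apply SD.imp | refine SD.app2 (by assumption) ?_ ?_)) ?_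
  intro s _ t _ G hG
  cases s with
  | nat n =>
    cases t <;> simp [Tr.lt, Tr.llt, Tr.fst, Tr.snd]
  | ord a =>
    cases t <;> simp [Tr.lt, Tr.llt, Tr.fst, Tr.snd]
  | pr s1 s2 =>
    cases t with
    | nat n => simp [Tr.lt, Tr.fst, Tr.snd]
    | ord a => simp [Tr.lt, Tr.fst, Tr.snd]
    | pr t1 t2 =>
      rw [Tr.lt]
      simp only [Tr.fst, Tr.snd]
      rw [hG s1 t1 (pd_lr (Or.inl rfl) (Or.inl rfl)), hG s2 t2 (pd_lr (Or.inr rfl) (Or.inr rfl))]
      simp

theorem sd_lmem (hrec : G_REC) [h : SOM k S S'] : SD k S S' (fun e _ => e.fst.lmem e.snd) := by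
  refine rel2 hrec (fun s t => s.lmem t) (fun s t G => t = .pr t.fst t.snd ∧ (s = t.fst ∨
      Tr.pr (.pr s t.snd) (.nat 0) ∈ G)) (by (repeat' first | assumption | exact ST.id | exact ST.nat _ | exact SV.var _ | apply ST.fst | apply ST.snd | apply ST.pr | apply SD.exT | apply SD.allT | apply SD.isOrd | apply SD.llt | apply SD.mem | apply SD.eq | apply SD.not | apply SD.and | apply SD.or | apply SD.iff | apply SD.imp | refine SD.app2 (by assumption) ?_ ?_)) ?_
  intro s _ t _ G hG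
  cases t with
  | nat n => simp [Tr.lmem, Tr.fst, Tr.snd]
  | ord a => simp [Tr.lmem, Tr.fst, Tr.snd]
  | pr t1 t2 =>
    simp only [Tr.lmem, Tr.fst, Tr.snd]
    rw [hG s t2 (pd_r (Or.inr rfl))]
    simp

theorem sd_leaf (hrec : G_REC) [h : SOM k S S'] : SD k S S' (fun e _ => LeafOf e.fst e.snd) := by
  refine rel2 hrec (fun s t => LeafOf s t) (fun s t G => (s.IsOrd ∧ s = t) ∨
    (t = .pr t.fst t.snd ∧ (Tr.pr (.pr s t.fst) (.nat 0) ∈ G ∨
      Tr.pr (.pr s t.snd) (.nat 0) ∈ G))) (by (repeat' first | assumption | exact ST.id | exact ST.nat _ | exact SV.var _ | apply ST.fst | apply ST.snd | apply ST.pr | apply SD.exT | apply SD.allT | apply SD.isOrd | apply SD.llt | apply SD.mem | apply SD.eq | apply SD.not | apply SD.and | apply SD.or | apply SD.iff | apply SD.imp | refine SD.app2 (by assumption) ?_ ?_)) ?_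
  intro s _ t _ G hG
  cases t with
  | nat n =>
    simp only [LeafOf, Tr.leaves, Tr.fst, Tr.snd]
    constructor
    · rintro ⟨a, ha, -⟩
      exact ha.elim
    · rintro (⟨h1, rfl⟩ | ⟨h1, -⟩)
      · exact h1.elim
      · simp at h1
  | ord a =>
    simp only [LeafOf, Tr.leaves, Tr.fst, Tr.snd]
    constructor
    · rintro ⟨b, hb, rfl⟩
      rw [mem_singleton_iff] at hb
      subst hb
      exact Or.inl ⟨trivial, rfl⟩
    · rintro (⟨h1, rfl⟩ | ⟨h1, -⟩)
      · exact ⟨a, rfl, rfl⟩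
      · simp at h1
  | pr t1 t2 =>
    simp only [Tr.fst, Tr.snd]
    rw [hG s t1 (pd_r (Or.inl rfl)), hG s t2 (pd_r (Or.inr rfl))]
    simp only [LeafOf, Tr.leaves]
    constructor
    · rintro ⟨b, hb | hb, rfl⟩
      · exact Or.inr ⟨trivial, Or.inl ⟨b, hb, rfl⟩⟩
      · exact Or.inr ⟨trivial, Or.inr ⟨b, hb, rfl⟩⟩
    · rintro (⟨h1, rfl⟩ | ⟨-, ⟨b, hb, rfl⟩ | ⟨b, hb, rfl⟩⟩)
      · exact h1.elim
      · exact ⟨b, Or.inl hb, rfl⟩
      · exact ⟨b, Or.inr hb, rfl⟩

theorem sd_sub (hrec : G_REC) [h : SOM k S S'] : SD k S S' (fun e _ => SubT e.fst e.snd) := by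
  refine rel2 hrec (fun s t => SubT s t) (fun s t G => s = t ∨
    (t = .pr t.fst t.snd ∧ (Tr.pr (.pr s t.fst) (.nat 0) ∈ G ∨
      Tr.pr (.pr s t.snd) (.nat 0) ∈ G))) (by (repeat' first | assumption | exact ST.id | exact ST.nat _ | exact SV.var _ | apply ST.fst | apply ST.snd | apply ST.pr | apply SD.exT | apply SD.allT | apply SD.isOrd | apply SD.llt | apply SD.mem | apply SD.eq | apply SD.not | apply SD.and | apply SD.or | apply SD.iff | apply SD.imp | refine SD.app2 (by assumption) ?_ ?_)) ?_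
  intro s _ t _ G hG
  cases t with
  | nat n => simp [SubT, Tr.fst, Tr.snd]
  | ord a => simp [SubT, Tr.fst, Tr.snd]
  | pr t1 t2 =>
    simp only [Tr.fst, Tr.snd]
    rw [hG s t1 (pd_r (Or.inl rfl)), hG s t2 (pd_r (Or.inr rfl))]
    simp [SubT]

theorem isOrd_iff {t : T} : t.IsOrd ↔ ∃ a, t = .ord a := by
  cases t <;> simp [Tr.IsOrd]

theorem sd_inD (hrec : G_REC) [h : SOM k S S'] : SD k S S' (fun e _ => InD e.fst e.snd) := by
  have hl := sd_leaf (k := k) (S := S) (S' := S') hrec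
  have h1 : SD k S S' (fun e _ => e.fst.IsOrd ∧ ∀ z ∈ D (Iio k), LeafOf z e.snd → z.llt e.fst) := by
    (repeat' first | assumption | exact ST.id | exact ST.nat _ | exact SV.var _ | apply ST.fst | apply ST.snd | apply ST.pr | apply SD.exT | apply SD.allT | apply SD.isOrd | apply SD.llt | apply SD.mem | apply SD.eq | apply SD.not | apply SD.and | apply SD.or | apply SD.iff | apply SD.imp | refine SD.app2 (by assumption) ?_ ?_)
  refine h1.congr fun e he σ _ => ?_
  constructor
  · rintro ⟨h2, h3⟩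
    obtain ⟨b, hb⟩ := isOrd_iff.1 h2
    refine ⟨b, hb, fun a ha => ?_⟩
    have := h3 (.ord a) (ord_mem.2 (snd_mem he ha)) ⟨a, ha, rfl⟩
    rw [hb] at this
    exact this
  · rintro ⟨b, h2, h3⟩
    rw [h2]
    refine ⟨trivial, ?_⟩
    rintro z - ⟨a, ha, rfl⟩
    exact h3 ha

theorem sd_code (hrec : G_REC) [h : SOM k S S'] :
    SD k S S' (fun e _ => ∃ c : Code, e = Tr.ofCode c) := by
  have hl := sd_leaf (k := k) (S := S) (S' := S') hrec
  have h1 : SD k S S' (fun e _ => ∀ z ∈ D (Iio k), ¬ LeafOf z e) := by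
    apply SD.allT
    apply SD.not
    exact hl.sub (t := fun p => .pr p.fst p.snd) (by (repeat' first | assumption | exact ST.id | exact ST.nat _ | exact SV.var _ | apply ST.fst | apply ST.snd | apply ST.pr | apply SD.exT | apply SD.allT | apply SD.isOrd | apply SD.llt | apply SD.mem | apply SD.eq | apply SD.not | apply SD.and | apply SD.or | apply SD.iff | apply SD.imp | refine SD.app2 (by assumption) ?_ ?_))
  refine h1.congr fun e he σ _ => ?_
  have h2 : (∀ z ∈ D (Iio k), ¬ LeafOf z e) ↔ e.leaves = ∅ := by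
    constructor
    · intro h3
      ext a
      simp only [mem_empty_iff_false, iff_false]
      intro ha
      exact h3 (.ord a) (ord_mem.2 (he ha)) ⟨a, ha, rfl⟩
    · rintro h3 z - ⟨a, ha, -⟩
      rw [h3] at ha
      exact ha
  rw [h2]
  constructor
  · clear h2 he
    intro h
    induction e with
    | nat n => exact ⟨.nat n, rfl⟩
    | ord a => simp [Tr.leaves] at h
    | pr s t hs ht =>
      simp only [Tr.leaves, union_empty_iff] at h
      obtain ⟨c, hc⟩ := hs h.1
      obtain ⟨d, hd⟩ := ht h.2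
      exact ⟨.pr c d, by rw [hc, hd]; rfl⟩
  · rintro ⟨c, rfl⟩
    clear h2 he
    unfold Tr.ofCode
    induction c with
    | nat n => rfl
    | ord a => exact a.elim
    | pr s t hs ht => simp only [Tr.map, Tr.leaves, hs, ht, union_empty]

theorem sd_nat [h : SOM k S S'] : SD k S S' (fun e _ => ∃ n : ℕ, e = .nat n) := by
  have h1 : SD k S S' (fun e _ => ¬ e.IsOrd ∧ ¬ e = .pr e.fst e.snd) := by (repeat' first | assumption | exact ST.id | exact ST.nat _ | exact SV.var _ | apply ST.fst | apply ST.snd | apply ST.pr | apply SD.exT | apply SD.allT | apply SD.isOrd | apply SD.llt | apply SD.mem | apply SD.eq | apply SD.not | apply SD.and | apply SD.or | apply SD.iff | apply SD.imp | refine SD.app2 (by assumption) ?_ ?_)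
  refine h1.congr fun e he σ _ => ?_
  cases e <;> simp [Tr.IsOrd, Tr.fst, Tr.snd]

theorem sd_succ [h : SOM k S S'] :
    SD k S S' (fun e _ => ∃ n : ℕ, e.fst = .nat n ∧ e.snd = .nat (n + 1)) := by
  have h1 : SD k S S' (fun e _ => (¬ e.fst.IsOrd ∧ ¬ e.fst = .pr e.fst.fst e.fst.snd) ∧
    (¬ e.snd.IsOrd ∧ ¬ e.snd = .pr e.snd.fst e.snd.snd) ∧ e.fst.llt e.snd ∧
    ∀ z ∈ D (Iio k), (¬ z.IsOrd ∧ ¬ z = .pr z.fst z.snd) → ¬ (e.fst.llt z ∧ z.llt e.snd)) := by
    (repeat' first | assumption | exact ST.id | exact ST.nat _ | exact SV.var _ | apply ST.fst | apply ST.snd | apply ST.pr | apply SD.exT | apply SD.allT | apply SD.isOrd | apply SD.llt | apply SD.mem | apply SD.eq | apply SD.not | apply SD.and | apply SD.or | apply SD.iff | apply SD.imp | refine SD.app2 (by assumption) ?_ ?_)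
  refine h1.congr fun e he σ _ => ?_
  have hn : ∀ t : T, (¬ t.IsOrd ∧ ¬ t = .pr t.fst t.snd) ↔ ∃ n : ℕ, t = .nat n := by
    intro t
    cases t <;> simp [Tr.IsOrd, Tr.fst, Tr.snd]
  simp only [hn]
  constructor
  · rintro ⟨⟨n, h2⟩, ⟨m, h3⟩, h4, h5⟩
    rw [h2, h3] at h4 h5
    have h4 : n < m := h4
    refine ⟨n, h2, ?_⟩
    rw [h3]
    by_contra hne
    have hne' : m ≠ n + 1 := fun hh => hne (by rw [hh])
    refine h5 (.nat (n + 1)) (nat_mem _ _) ⟨_, rfl⟩ ⟨?_, ?_⟩
    · change n < n + 1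
      omega
    · change n + 1 < m
      omega
  · rintro ⟨n, h2, h3⟩
    rw [h2, h3]
    refine ⟨⟨n, rfl⟩, ⟨_, rfl⟩, ?_, ?_⟩
    · change n < n + 1
      omega
    · rintro z - ⟨m, rfl⟩ ⟨h4, h5⟩
      have h4 : n < m := h4
      have h5 : m < n + 1 := h5
      omega

theorem ofCode_inj {c c' : Code} (h : (Tr.ofCode c : T) = Tr.ofCode c') : c = c' := by
  unfold Tr.ofCode at h
  induction c generalizing c' with
  | nat n =>
    cases c' with
    | nat m => simpa [Tr.map] using h
    | ord a => exact a.elim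
    | pr _ _ => simp [Tr.map] at h
  | ord a => exact a.elim
  | pr s t hs ht =>
    cases c' with
    | nat m => simp [Tr.map] at h
    | ord a => exact a.elim
    | pr s' t' =>
      simp only [Tr.map, Tr.pr.injEq] at h
      rw [hs h.1, ht h.2]

theorem oc_nat (n : ℕ) : (Tr.ofCode (.nat n) : T) = .nat n := rfl
theorem oc_pr (c d : Code) : (Tr.ofCode (.pr c d) : T) = .pr (Tr.ofCode c) (Tr.ofCode d) := rfl

theorem oc_eq_nat {c : Code} {n : ℕ} : (Tr.ofCode c : T) = .nat n ↔ c = .nat n := by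
  rw [← oc_nat]
  exact ⟨ofCode_inj, fun h => by rw [h]⟩

/-- The values of terms. -/
def TV (c e y : T) : Prop := ∃ c' : Code, c = Tr.ofCode c' ∧ y = tval c' e

theorem tv_oc {c : Code} {e y : T} : TV (Tr.ofCode c) e y ↔ y = tval c e := by
  constructor
  · rintro ⟨c', h1, h2⟩
    rw [ofCode_inj h1]
    exact h2
  · intro h
    exact ⟨c, rfl, h⟩

/-- One step of the evaluation. -/
def Ev (k : O) (c e y : T) (G : Set T) : Prop :=
  (c = .nat 0 ∧ y = e) ∨
  (∃ n : ℕ, y = .nat n ∧ c = .nat (n + 1)) ∨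
  (c = .pr c.fst c.snd ∧ c.fst = .nat 0 ∧ ∃ z ∈ D (Iio k), Tr.pr (.pr c.snd e) z ∈ G ∧ y = z.fst) ∨
  (c = .pr c.fst c.snd ∧ c.fst = .nat 1 ∧ ∃ z ∈ D (Iio k), Tr.pr (.pr c.snd e) z ∈ G ∧ y = z.snd) ∨
  (c = .pr c.fst c.snd ∧ c.fst = .nat 2 ∧ c.snd = .pr c.snd.fst c.snd.snd ∧ y = .pr y.fst y.snd ∧
    Tr.pr (.pr c.snd.fst e) y.fst ∈ G ∧ Tr.pr (.pr c.snd.snd e) y.snd ∈ G) ∨
  (c = .pr c.fst c.snd ∧ ¬ c.fst = .nat 0 ∧ ¬ c.fst = .nat 1 ∧
    ¬ (c.fst = .nat 2 ∧ c.snd = .pr c.snd.fst c.snd.snd) ∧ y = .nat 0)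

theorem isP_oc {c : Code} : (Tr.ofCode c : T) = .pr (Tr.ofCode c : T).fst (Tr.ofCode c : T).snd ↔
    ∃ s t, c = .pr s t := by
  cases c with
  | nat n => simp [oc_nat, Tr.fst, Tr.snd]
  | ord a => exact a.elim
  | pr s t => simp [oc_pr, Tr.fst, Tr.snd]

theorem pd_c {s₁ s₂ e : T} : Pd (.pr s₂ e) (.pr (.pr s₁ s₂) e) := pd_l (Or.inr rfl)

theorem pd_c2 {s₁ s₂ s₃ a e : T} (ha : a = s₂ ∨ a = s₃) :
    Pd (.pr a e) (.pr (.pr s₁ (.pr s₂ s₃)) e) := by
  refine ⟨rfl, rfl, Or.inl ⟨⟨rfl, Or.inr (Or.inr ⟨rfl, ?_⟩)⟩, rfl⟩⟩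
  exact ha

theorem fst_pr (s t : T) : (Tr.pr s t).fst = s := rfl
theorem snd_pr (s t : T) : (Tr.pr s t).snd = t := rfl

theorem ev_iff {c : Code} {e y : T} (he : e ∈ D (Iio k)) {G : Set T}
    (hG : ∀ a b, Pd (.pr a e) (.pr (Tr.ofCode c) e) → (Tr.pr (.pr a e) b ∈ G ↔ TV a e b)) :
    Ev k (Tr.ofCode c) e y G ↔ y = tval c e := by
  unfold Ev
  cases c with
  | ord a => exact a.elim
  | nat n =>
    rw [oc_nat]
    cases n with
    | zero => simp [tval, Tr.fst, Tr.snd]
    | succ n =>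
      simp only [tval, Tr.fst, Tr.snd]
      constructor
      · rintro (⟨h1, -⟩ | ⟨m, h1, h2⟩ | ⟨h1, -⟩ | ⟨h1, -⟩ | ⟨h1, -⟩ | ⟨h1, -⟩)
        · simp at h1
        · simp only [Tr.nat.injEq, add_left_inj] at h2
          rw [h1, h2]
        · simp at h1
        · simp at h1
        · simp at h1
        · simp at h1
      · intro h
        exact Or.inr (Or.inl ⟨n, h, rfl⟩)
  | pr s t =>
    rw [oc_pr] at hG ⊢
    simp only [fst_pr, snd_pr]
    have hc : ∀ b, (Tr.pr (.pr (Tr.ofCode t) e) b ∈ G ↔ b = tval t e) := fun b => by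
      rw [hG _ _ pd_c, tv_oc]
    have hnn : ∀ n : ℕ, ¬ (Tr.pr (Tr.ofCode s : T) (Tr.ofCode t) = .nat n) := by simp
    have hnn2 : (∃ n : ℕ, y = .nat n ∧ False) ↔ False := by simp
    simp only [hnn, hnn2, false_and, false_or, true_and, hc, oc_eq_nat]
    by_cases h0 : s = .nat 0
    · subst h0
      simp only [tval]
      constructor
      · rintro (⟨-, z, -, rfl, h⟩ | ⟨h, -⟩ | ⟨h, -⟩ | ⟨h, -⟩)
        · exact h
        · simp at h
        · simp at h
        · exact absurd (by trivial) h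
      · intro h
        exact Or.inl ⟨by trivial, _, tval_mem he, rfl, h⟩
    · by_cases h1 : s = .nat 1
      · subst h1
        simp only [tval]
        constructor
        · rintro (⟨h, -⟩ | ⟨-, z, -, rfl, h⟩ | ⟨h, -⟩ | ⟨-, h, -⟩)
          · simp at h
          · exact h
          · simp at h
          · exact absurd (by trivial) h
        · intro h
          exact Or.inr (Or.inl ⟨by trivial, _, tval_mem he, rfl, h⟩)
      · simp only [h0, h1, false_and, false_or, not_false_eq_true, true_and]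
        by_cases h2 : s = .nat 2 ∧ ∃ u v, t = .pr u v
        · obtain ⟨rfl, u, v, rfl⟩ := h2
          rw [oc_pr] at hG ⊢
          simp only [fst_pr, snd_pr, tval]
          rw [hG _ _ (pd_c2 (Or.inl rfl)), hG _ _ (pd_c2 (Or.inr rfl)), tv_oc, tv_oc]
          constructor
          · rintro (⟨-, -, h3, h4, h5⟩ | ⟨h, -⟩)
            · rw [h3, h4, h5]
            · exact absurd ⟨by trivial, by trivial⟩ h
          · intro h
            rw [h]
            exact Or.inl ⟨by trivial, by trivial, by trivial, by trivial, by trivial⟩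
        · have h3 : ¬ (s = .nat 2 ∧ (Tr.ofCode t : T) = .pr (Tr.ofCode t : T).fst
              (Tr.ofCode t : T).snd) := by
            rw [isP_oc]
            exact h2
          have h4 : tval (.pr s t) e = .nat 0 := by
            unfold tval
            split
            all_goals simp_all
          rw [h4]
          constructor
          · rintro (⟨g1, g2, -⟩ | ⟨-, h⟩)
            · exact absurd ⟨g1, g2⟩ h3
            · exact h
          · intro h
            exact Or.inr ⟨h3, h⟩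

theorem sd_tval (hrec : G_REC) [h : SOM k S S'] :
    SD k S S' (fun e _ => ∃ c : Code, e.fst = Tr.ofCode c ∧ tval c e.snd.fst = e.snd.snd) := by
  have hcode := sd_code (k := k) (S := S) (S' := S') hrec
  have hsucc := sd_succ (k := k) (S := S) (S' := S')
  have hEv : SD k S S' (fun e σ => Ev k e.fst.fst e.fst.snd e.snd (σ 0)) := by
    have hs : SD k S S' (fun e _ => ∃ n : ℕ, e.snd = .nat n ∧ e.fst.fst = .nat (n + 1)) :=
      hsucc.sub (t := fun e => .pr e.snd e.fst.fst) (by (repeat' first | assumption | exact ST.id | exact ST.nat _ | exact SV.var _ | apply ST.fst | apply ST.snd | apply ST.pr | apply SD.exT | apply SD.allT | apply SD.isOrd | apply SD.llt | apply SD.mem | apply SD.eq | apply SD.not | apply SD.and | apply SD.or | apply SD.iff | apply SD.imp | refine SD.app2 (by assumption) ?_ ?_))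
    unfold Ev
    refine SD.or (by (repeat' first | assumption | exact ST.id | exact ST.nat _ | exact SV.var _ | apply ST.fst | apply ST.snd | apply ST.pr | apply SD.exT | apply SD.allT | apply SD.isOrd | apply SD.llt | apply SD.mem | apply SD.eq | apply SD.not | apply SD.and | apply SD.or | apply SD.iff | apply SD.imp | refine SD.app2 (by assumption) ?_ ?_)) (SD.or hs (SD.or ?_ (SD.or ?_ (SD.or ?_ ?_))))
    · (repeat' first | assumption | exact ST.id | exact ST.nat _ | exact SV.var _ | apply ST.fst | apply ST.snd | apply ST.pr | apply SD.exT | apply SD.allT | apply SD.isOrd | apply SD.llt | apply SD.mem | apply SD.eq | apply SD.not | apply SD.and | apply SD.or | apply SD.iff | apply SD.imp | refine SD.app2 (by assumption) ?_ ?_)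
    · (repeat' first | assumption | exact ST.id | exact ST.nat _ | exact SV.var _ | apply ST.fst | apply ST.snd | apply ST.pr | apply SD.exT | apply SD.allT | apply SD.isOrd | apply SD.llt | apply SD.mem | apply SD.eq | apply SD.not | apply SD.and | apply SD.or | apply SD.iff | apply SD.imp | refine SD.app2 (by assumption) ?_ ?_)
    · (repeat' first | assumption | exact ST.id | exact ST.nat _ | exact SV.var _ | apply ST.fst | apply ST.snd | apply ST.pr | apply SD.exT | apply SD.allT | apply SD.isOrd | apply SD.llt | apply SD.mem | apply SD.eq | apply SD.not | apply SD.and | apply SD.or | apply SD.iff | apply SD.imp | refine SD.app2 (by assumption) ?_ ?_)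
    · (repeat' first | assumption | exact ST.id | exact ST.nat _ | exact SV.var _ | apply ST.fst | apply ST.snd | apply ST.pr | apply SD.exT | apply SD.allT | apply SD.isOrd | apply SD.llt | apply SD.mem | apply SD.eq | apply SD.not | apply SD.and | apply SD.or | apply SD.iff | apply SD.imp | refine SD.app2 (by assumption) ?_ ?_)
  have hcode' : SD k S S' (fun e _ => ∃ c : Code, e.fst.fst = Tr.ofCode c) :=
    hcode.sub (t := fun e => e.fst.fst) (by (repeat' first | assumption | exact ST.id | exact ST.nat _ | exact SV.var _ | apply ST.fst | apply ST.snd | apply ST.pr | apply SD.exT | apply SD.allT | apply SD.isOrd | apply SD.llt | apply SD.mem | apply SD.eq | apply SD.not | apply SD.and | apply SD.or | apply SD.iff | apply SD.imp | refine SD.app2 (by assumption) ?_ ?_))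
  have key := hrec k S S' h (fun x => {p | Pd p x})
    (fun x => {y | x = .pr x.fst x.snd ∧ TV x.fst x.snd y})
    (fun x y G => x = .pr x.fst x.snd ∧ (∃ c : Code, x.fst = Tr.ofCode c) ∧
      Ev k x.fst x.snd y G) sd_pd ?_ pd_wf (d0 h) ?_ ?_
  · have h1 : SD k S S' (fun e _ => e.snd ∈ ({y | e.fst = .pr e.fst.fst e.fst.snd ∧
        TV e.fst.fst e.fst.snd y} : Set T)) := key.1
    have h2 := h1.sub (t := fun e => .pr (.pr e.fst e.snd.fst) e.snd.snd) (by (repeat' first | assumption | exact ST.id | exact ST.nat _ | exact SV.var _ | apply ST.fst | apply ST.snd | apply ST.pr | apply SD.exT | apply SD.allT | apply SD.isOrd | apply SD.llt | apply SD.mem | apply SD.eq | apply SD.not | apply SD.and | apply SD.or | apply SD.iff | apply SD.imp | refine SD.app2 (by assumption) ?_ ?_))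
    refine h2.congr fun e he σ hσ => ?_
    constructor
    · rintro ⟨-, c, h3, h4⟩
      exact ⟨c, h3, h4.symm⟩
    · rintro ⟨c, h3, h4⟩
      exact ⟨rfl, c, h3, h4.symm⟩
  · exact SD.and (by (repeat' first | assumption | exact ST.id | exact ST.nat _ | exact SV.var _ | apply ST.fst | apply ST.snd | apply ST.pr | apply SD.exT | apply SD.allT | apply SD.isOrd | apply SD.llt | apply SD.mem | apply SD.eq | apply SD.not | apply SD.and | apply SD.or | apply SD.iff | apply SD.imp | refine SD.app2 (by assumption) ?_ ?_)) (SD.and hcode' hEv)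
  · intro x hx y
    have hG : ∀ c : Code, x = .pr (Tr.ofCode c) x.snd → ∀ a b,
        Pd (.pr a x.snd) (.pr (Tr.ofCode c) x.snd) →
        (Tr.pr (.pr a x.snd) b ∈ {p : T | ∃ x' y' : T, p = .pr x' y' ∧ x' ∈ ({p | Pd p x} : Set T) ∧
          y' ∈ ({y | x' = .pr x'.fst x'.snd ∧ TV x'.fst x'.snd y} : Set T)} ↔ TV a x.snd b) := by
      intro c hc a b hab
      rw [← hc] at hab
      constructor
      · rintro ⟨x', y', h3, -, h6, h7⟩
        simp only [Tr.pr.injEq] at h3
        obtain ⟨rfl, rfl⟩ := h3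
        exact h7
      · intro h3
        exact ⟨_, _, rfl, hab, rfl, h3⟩
    constructor
    · rintro ⟨h1, c, h2, h3⟩
      refine ⟨by rw [h3]; exact tval_mem (snd_mem hx), h1, ⟨c, h2⟩, ?_⟩
      rw [h2, ev_iff (snd_mem hx) (hG c (by rw [← h2]; exact h1))]
      exact h3
    · rintro ⟨-, h1, ⟨c, h2⟩, h3⟩
      refine ⟨h1, ?_⟩
      rw [h2, ev_iff (snd_mem hx) (hG c (by rw [← h2]; exact h1))] at h3
      exact ⟨c, h2, h3⟩
  · intro d hd
    refine ⟨d, hd, fun x hx y hy => ?_⟩
    obtain ⟨-, c, -, h3⟩ := hy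
    rw [h3]
    exact tval_mem (snd_mem hx)

theorem thm (hrec : G_REC) : G_TRE := by
  intro k S S' h
  haveI := h
  exact ⟨sd_hle hrec, sd_lt hrec, sd_lmem hrec, sd_leaf hrec, sd_sub hrec, sd_inD hrec,
    sd_code hrec, sd_nat, sd_succ, sd_tval hrec⟩

end Pool.Agent.Helper17.OD.PkTRE
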