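import Pool.Agent.Helper46.OD.TDC2

/-!
# OD packet TTC: closure rules for terms
-/

namespace Pool.Agent.Helper17.OD.PkTTC

theorem thm : G_TTC :=
  ⟨TT.id46, TT.nat46, TT.code46, fun _ h => h.fst46, fun _ h => h.snd46,
    fun _ _ hs ht => TT.pr46 hs ht, fun _ _ hs ht => TT.comp46 hs ht⟩

end Pool.Agent.Helper17.OD.PkTTC
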