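import Pool.Agent.Helper46.OD.TDC

/-!
# OD packet TDC2: more T-definable relations
-/

namespace Pool.Agent.Helper17.OD

open Set

/-! ### Terms -/

theorem TT.id46 : TT (fun e => e) := ⟨.nat 0, fun _ => rfl⟩
theorem TT.nat46 (n : ℕ) : TT (fun _ => .nat n) := ⟨.nat (n + 1), fun _ => rfl⟩
theorem TT.fst46 {t : T → T} (h : TT t) : TT (fun e => (t e).fst) := by
  obtain ⟨c, hc⟩ := h
  exact ⟨.pr (.nat 0) c, fun e => by simp [tval, hc]⟩
theorem TT.snd46 {t : T → T} (h : TT t) : TT (fun e => (t e).snd) := by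
  obtain ⟨c, hc⟩ := h
  exact ⟨.pr (.nat 1) c, fun e => by simp [tval, hc]⟩
theorem TT.pr46 {s t : T → T} (hs : TT s) (ht : TT t) : TT (fun e => .pr (s e) (t e)) := by
  obtain ⟨c, hc⟩ := hs
  obtain ⟨d, hd⟩ := ht
  exact ⟨.pr (.nat 2) (.pr c d), fun e => by simp [tval, hc, hd]⟩
theorem TT.comp46 {s t : T → T} (hs : TT s) (ht : TT t) : TT (fun e => s (t e)) := by
  obtain ⟨c, hc⟩ := hs
  obtain ⟨d, hd⟩ := ht
  exact ⟨ccomp c d, fun e => by rw [tval_ccomp, hc, hd]⟩
theorem TT.code46 (c : Code) : TT (fun _ => Tr.ofCode c) := by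
  induction c with
  | nat n => exact TT.nat46 n
  | ord a => exact a.elim
  | pr s t hs ht => exact TT.pr46 hs ht

theorem TT.mem46 {t : T → T} (h : TT t) {e : T} {A : Set O} (he : e ∈ D A) : t e ∈ D A := by
  obtain ⟨c, hc⟩ := h
  rw [← hc]
  exact tval_mem he

/-! ### Definable relations -/

theorem TDef.congr46 {P R : O → T → Prop} (hP : TDef P) (h : ∀ a, ∀ e ∈ D (Iio a), (P a e ↔ R a e)) :
    TDef R := PkTDC.congr hP h
theorem TDef.not46 {P : O → T → Prop} (hP : TDef P) : TDef (fun a e => ¬ P a e) := PkTDC.not hP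
theorem TDef.and46 {P R : O → T → Prop} (hP : TDef P) (hR : TDef R) :
    TDef (fun a e => P a e ∧ R a e) := PkTDC.and hP hR
theorem TDef.or46 {P R : O → T → Prop} (hP : TDef P) (hR : TDef R) :
    TDef (fun a e => P a e ∨ R a e) := PkTDC.or hP hR
theorem TDef.imp46 {P R : O → T → Prop} (hP : TDef P) (hR : TDef R) :
    TDef (fun a e => P a e → R a e) := PkTDC.imp hP hR
theorem TDef.iff46 {P R : O → T → Prop} (hP : TDef P) (hR : TDef R) :
    TDef (fun a e => (P a e ↔ R a e)) := PkTDC.iff hP hR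
theorem TDef.ex46 {P : O → T → T → Prop} (hP : TDef (fun a p => P a p.snd p.fst)) :
    TDef (fun a e => ∃ x ∈ D (Iio a), P a e x) := PkTDC.ex hP
theorem TDef.all46 {P : O → T → T → Prop} (hP : TDef (fun a p => P a p.snd p.fst)) :
    TDef (fun a e => ∀ x ∈ D (Iio a), P a e x) := PkTDC.all hP
theorem TDef.sub46 {P : O → T → Prop} {t : T → T} (hP : TDef P) (ht : TT t) :
    TDef (fun a e => P a (t e)) := PkTDC.sub hP ht
theorem TDef.eq46 {s t : T → T} (hs : TT s) (ht : TT t) : TDef (fun _ e => s e = t e) :=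
  PkTDC.thm.1 s t hs ht
theorem TDef.lt46 {s t : T → T} (hs : TT s) (ht : TT t) : TDef (fun _ e => (s e).lt (t e)) :=
  PkTDC.thm.2.1 s t hs ht
theorem TDef.isOrd46 {s : T → T} (hs : TT s) : TDef (fun _ e => (s e).IsOrd) :=
  PkTDC.thm.2.2.1 s hs
theorem TDef.lmem46 {s t : T → T} (hs : TT s) (ht : TT t) : TDef (fun _ e => (s e).lmem (t e)) :=
  PkTDC.thm.2.2.2.1 s t hs ht
theorem TDef.const46 (p : Prop) : TDef (fun _ _ => p) := PkTDC.thm.2.2.2.2.1 p
theorem TDef.truT46 {s u v : T → T} (hs : TT s) (hu : TT u) (hv : TT v) :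
    TDef (fun _ e => TruT (s e) (u e) (v e)) :=
  PkTDC.thm.2.2.2.2.2.2.2.2.2.2.2.2.2.1 s u v hs hu hv
theorem TDef.tru46 (c : Code) {t : T → T} (ht : TT t) : TDef (fun a e => Tru a c (t e)) :=
  PkTDC.thm.2.2.2.2.2.2.2.2.2.2.2.2.2.2 c t ht

theorem ofCode_leaves46 (c : Code) : (Tr.ofCode c : T).leaves = ∅ := by
  unfold Tr.ofCode
  induction c with
  | nat n => rfl
  | ord a => exact a.elim
  | pr s t hs ht => simp only [Tr.map, Tr.leaves, hs, ht, union_empty]

theorem ofCode_inj46 {c c' : Code} (h : (Tr.ofCode c : T) = Tr.ofCode c') : c = c' := by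
  unfold Tr.ofCode at h
  induction c generalizing c' with
  | nat n =>
    cases c' with
    | nat m => simpa [Tr.map] using h
    | ord a => exact a.elim
    | pr _ _ => simp [Tr.map] at h
  | ord a => exact a.elim
  | pr s t hs ht =>
    cases c' with
    | nat m => simp [Tr.map] at h
    | ord a => exact a.elim
    | pr s' t' =>
      simp only [Tr.map, Tr.pr.injEq] at h
      rw [hs h.1, ht h.2]

theorem exists_ofCode46 {t : T} (h : t.leaves = ∅) : ∃ c : Code, t = Tr.ofCode c := by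
  induction t with
  | nat n => exact ⟨.nat n, rfl⟩
  | ord a => simp [Tr.leaves] at h
  | pr s t hs ht =>
    simp only [Tr.leaves, union_empty_iff] at h
    obtain ⟨c, hc⟩ := hs h.1
    obtain ⟨d, hd⟩ := ht h.2
    exact ⟨.pr c d, by rw [hc, hd]; rfl⟩

theorem code_iff46 (t : T) : (∃ c : Code, t = Tr.ofCode c) ↔ t.leaves = ∅ :=
  ⟨fun ⟨c, hc⟩ => hc ▸ ofCode_leaves46 c, exists_ofCode46⟩

theorem D_zero46 {t : T} : t ∈ D (Iio (0 : O)) ↔ t.leaves = ∅ := by
  have : (Iio (0 : O)) = ∅ := by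
    ext x
    simp
  rw [this]
  simp [D, subset_empty_iff]

theorem TDef.inD46 {s t : T → T} (hs : TT s) (ht : TT t) : TDef (fun _ e => InD (s e) (t e)) := by
  have h := TDef.truT46 hs (TT.code46 (.pr (.nat 0) (.pr (.nat 1) (.nat 1)))) ht
  refine h.congr46 fun a e he => ?_
  constructor
  · rintro ⟨b, c, h1, -, h2, -⟩
    exact ⟨b, h1, h2⟩
  · rintro ⟨b, h1, h2⟩
    exact ⟨b, _, h1, rfl, h2, by rw [PkTDC.t_eq]⟩

theorem TDef.isWT46 {s u v x : T → T} (hs : TT s) (hu : TT u) (hv : TT v) (hx : TT x) :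
    TDef (fun _ e => IsWT (s e) (u e) (v e) (x e)) := by
  have h1 := TDef.inD46 hs hv
  have h2 := TDef.inD46 hs hx
  have h3 := TDef.truT46 hs hu (TT.pr46 hx hv)
  have h4 : TDef (fun a e => ∀ y ∈ D (Iio a), InD (s e) y → TruT (s e) (u e) (.pr y (v e)) →
      ¬ y.lt (x e)) := by
    refine TDef.all46 (P := fun a e y => InD (s e) y → TruT (s e) (u e) (.pr y (v e)) →
      ¬ y.lt (x e)) ?_
    have hs' := TT.comp46 hs TT.id46.snd46
    have hu' := TT.comp46 hu TT.id46.snd46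
    have hv' := TT.comp46 hv TT.id46.snd46
    have hx' := TT.comp46 hx TT.id46.snd46
    exact (TDef.inD46 hs' TT.id46.fst46).imp46 ((TDef.truT46 hs' hu' (TT.pr46 TT.id46.fst46 hv')).imp46
      (TDef.lt46 TT.id46.fst46 hx').not46)
  refine (h1.and46 (h2.and46 (h3.and46 h4))).congr46 fun a e he => ?_
  constructor
  · rintro ⟨⟨b, e1, e2⟩, ⟨b', e3, e4⟩, ⟨b'', c, e5, e6, e7, e8⟩, h⟩
    rw [e1] at e3 e5 h
    injection e3 with e3
    injection e5 with e5
    subst e3 e5
    refine ⟨b, c, e1, e6, e2, e4, e8, fun y hy hty => ?_⟩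
    have hb : b < a := by
      have : s e ∈ D (Iio a) := hs.mem46 he
      rw [e1] at this
      exact ord_mem.1 this
    exact h y (D_mono (Iio_subset_Iio hb.le) hy) ⟨b, rfl, hy⟩
      ⟨b, c, rfl, e6, pr_mem.2 ⟨hy, e2⟩, hty⟩
  · rintro ⟨b, c, e1, e2, e3, e4, e5, e6⟩
    refine ⟨⟨b, e1, e3⟩, ⟨b, e1, e4⟩, ⟨b, c, e1, e2, pr_mem.2 ⟨e4, e3⟩, e5⟩, ?_⟩
    rintro y hy ⟨b', f1, f2⟩ ⟨b'', c', f3, f4, f5, f6⟩
    rw [e1] at f1 f3
    injection f1 with f1
    injection f3 with f3
    subst f1 f3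
    have hcc : c = c' := ofCode_inj46 (e2.symm.trans f4)
    subst hcc
    exact e6 y f2 f6

theorem TDef.isCode46 {t : T → T} (ht : TT t) : TDef (fun _ e => ∃ c : Code, t e = Tr.ofCode c) := by
  have h1 : TDef (fun a (_ : T) => ∀ z ∈ D (Iio a), ¬ z.IsOrd) := by
    refine TDef.all46 (P := fun a (_ : T) z => ¬ z.IsOrd) ?_
    exact (TDef.isOrd46 TT.id46.fst46).not46
  have h2 : TDef (fun a e => ∃ z ∈ D (Iio a), z.IsOrd ∧ (∀ y ∈ D (Iio a), y.IsOrd → ¬ y.lt z) ∧
      InD z (t e)) := by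
    refine TDef.ex46 (P := fun a e z => z.IsOrd ∧ (∀ y ∈ D (Iio a), y.IsOrd → ¬ y.lt z) ∧
      InD z (t e)) ?_
    refine (TDef.isOrd46 TT.id46.fst46).and46 (TDef.and46 ?_ (TDef.inD46 TT.id46.fst46 (TT.comp46 ht TT.id46.snd46)))
    refine TDef.all46 (P := fun a (p : T) y => y.IsOrd → ¬ y.lt p.fst) ?_
    exact (TDef.isOrd46 TT.id46.fst46).imp46 (TDef.lt46 TT.id46.fst46 TT.id46.snd46.fst46).not46
  refine (h1.or46 h2).congr46 fun a e he => ?_
  rw [code_iff46]
  constructor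
  · rintro (h | ⟨z, hz, hzo, hz2, b, h3, h4⟩)
    · have ha : a = 0 := by
        by_contra ha
        have ha : 0 < a := pos_iff_ne_zero.2 ha
        exact h (.ord 0) (ord_mem.2 ha) trivial
      subst ha
      exact D_zero46.1 (ht.mem46 he)
    · subst h3
      have hb : b = 0 := by
        by_contra hb
        have hb : 0 < b := pos_iff_ne_zero.2 hb
        have hb2 : b < a := ord_mem.1 hz
        exact hz2 (.ord 0) (ord_mem.2 (hb.trans hb2)) trivial (by simpa [Tr.lt] using hb)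
      subst hb
      exact D_zero46.1 h4
  · intro h
    by_cases ha : a = 0
    · left
      subst ha
      intro z hz hzo
      cases z with
      | nat n => exact hzo
      | pr _ _ => exact hzo
      | ord x => exact absurd (ord_mem.1 hz) (by simp)
    · right
      have ha : 0 < a := pos_iff_ne_zero.2 ha
      refine ⟨.ord 0, ord_mem.2 ha, trivial, ?_, 0, rfl, D_zero46.2 h⟩
      intro y hy hyo hlt
      cases y with
      | nat n => exact hyo
      | pr _ _ => exact hyo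
      | ord x =>
        have : x < 0 := by simpa [Tr.lt] using hlt
        exact absurd this (by simp)

theorem isPair_iff46 (q : T) : q = .pr q.fst q.snd ↔ ∃ x y, q = .pr x y := by
  constructor
  · intro h
    exact ⟨_, _, h⟩
  · rintro ⟨x, y, rfl⟩
    rfl

theorem TDef.av46 {q u e' : T → T} (hq : TT q) (hu : TT u) (he' : TT e') :
    TDef (fun _ e => ∃ c : Code, u e = Tr.ofCode c ∧ av (q e) c (e' e)) := by
  have h1 := TDef.isCode46 hu
  have h2 := TDef.eq46 hq (TT.pr46 hq.fst46 hq.snd46)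
  have h3 := TDef.lt46 hu hq.fst46
  have h4 := TDef.eq46 hu hq.fst46
  have h5 := TDef.lt46 he' hq.snd46
  refine (h1.and46 (h2.imp46 (h3.or46 (h4.and46 h5)))).congr46 fun a e he => ?_
  constructor
  · rintro ⟨⟨c, hc⟩, h⟩
    refine ⟨c, hc, ?_⟩
    rw [hc] at h
    generalize q e = r at h ⊢
    cases r with
    | nat n => trivial
    | ord a => trivial
    | pr φ v => exact h rfl
  · rintro ⟨c, hc, h⟩
    refine ⟨⟨c, hc⟩, ?_⟩
    rw [hc]
    generalize q e = r at h ⊢
    cases r with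
    | nat n => intro h; simp at h
    | ord a => intro h; simp at h
    | pr φ v => exact fun _ => h

theorem TDef.levD46 {m t : T → T} (hm : TT m) (ht : TT t) :
    TDef (fun _ e => (m e).fst.IsOrd ∧ t e ∈ D (Iio (mA (m e)))) := by
  refine (TDef.inD46 hm.fst46 ht).congr46 fun a e he => ?_
  constructor
  · rintro ⟨b, h1, h2⟩
    refine ⟨by rw [h1]; trivial, ?_⟩
    rw [mA, h1]
    exact h2
  · rintro ⟨h1, h2⟩
    rw [mA] at h2
    generalize (m e).fst = r at h1 h2 ⊢
    cases r with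
    | nat n => exact h1.elim
    | pr _ _ => exact h1.elim
    | ord b => exact ⟨b, rfl, h2⟩

theorem TDef.ltD46 {m x : T → T} (hm : TT m) (hx : TT x) :
    TDef (fun _ e => ∃ a : O, x e = .ord a ∧ a < mD (m e)) := by
  have h1 := TDef.isOrd46 hx
  have h2 := TDef.isOrd46 hm.snd46.snd46.fst46
  have h3 := TDef.lt46 hx hm.snd46.snd46.fst46
  refine (h1.and46 (h2.and46 h3)).congr46 fun a e he => ?_
  unfold mD
  generalize (m e).snd.snd.fst = r
  generalize x e = y
  constructor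
  · rintro ⟨g1, g2, g3⟩
    cases y with
    | nat n => exact g1.elim
    | pr _ _ => exact g1.elim
    | ord b =>
      cases r with
      | nat n => exact g2.elim
      | pr _ _ => exact g2.elim
      | ord c => exact ⟨b, rfl, by simpa [Tr.lt, lev] using g3⟩
  · rintro ⟨b, rfl, hb⟩
    refine ⟨trivial, ?_⟩
    cases r with
    | nat n => exact absurd hb (by simp [lev])
    | pr _ _ => exact absurd hb (by simp [lev])
    | ord c => exact ⟨trivial, by simpa [Tr.lt, lev] using hb⟩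

namespace PkTDC2

theorem thm : G_TDC2 :=
  ⟨fun _ _ hs ht => TDef.inD46 hs ht, fun _ _ _ _ hs hu hv hx => TDef.isWT46 hs hu hv hx,
    fun _ ht => TDef.isCode46 ht, fun _ _ _ hq hu he => TDef.av46 hq hu he,
    fun _ _ hm ht => TDef.levD46 hm ht, fun _ _ hm hx => TDef.ltD46 hm hx⟩

end PkTDC2

end Pool.Agent.Helper17.OD
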